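import Pool.Agent.H933R4.FAS

set_option autoImplicit false

/-!
MP_8e7993_co (Lichiardopol): minimal feedback arc sets containing long directed paths.

For all `k ≥ 1` and all `g` there is a finite strongly connected loopless digraph, all of whose
out-degrees are `k` and all of whose closed walks have at least `g` arcs, such that no
inclusion-minimal feedback arc set contains three consecutive arcs `a → b → c → d`. So no minimum
out-degree, even together with large girth, forces a minimal feedback arc set containing a directed
path of length `3`.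
-/

open Relation in
theorem Pool.Agent.Results.MP_8e7993_co.NoFeedbackPathOfLengthThree.result
    (k g : ℕ) (hk : 1 ≤ k) :
    ∃ (V : Type) (_ : Finite V) (_ : Nonempty V) (G : Digraph V),
      -- no loops
      (∀ v, ¬ G.Adj v v) ∧
      -- all out-degrees are equal to `k`
      (∀ v, Nat.card {w : V // G.Adj v w} = k) ∧
      -- strongly connected
      (∀ u v, ReflTransGen G.Adj u v) ∧
      -- girth at least `g`
      (∀ (n : ℕ) (p : ℕ → V), 1 ≤ n → p n = p 0 → (∀ i < n, G.Adj (p i) (p (i + 1))) → g ≤ n) ∧
      -- no minimal feedback arc set contains three consecutive arcs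
      (∀ F : Set (V × V),
        Minimal (fun S : Set (V × V) =>
          (∀ e ∈ S, G.Adj e.1 e.2) ∧
          ∀ v : V, ¬ TransGen (fun a b => G.Adj a b ∧ (a, b) ∉ S) v v) F →
        ∀ a b c d : V, (a, b) ∈ F → (b, c) ∈ F → (c, d) ∉ F) := by
  refine ⟨Pool.Agent.H933R4.FAS.Vtx k (g + 1), inferInstance,
    ⟨(⟨0, by omega⟩, ⟨[], by simp⟩)⟩, Pool.Agent.H933R4.FAS.D k (g + 1),
    Pool.Agent.H933R4.FAS.D_loopless, Pool.Agent.H933R4.FAS.outdeg,
    Pool.Agent.H933R4.FAS.strong hk, ?_, ?_⟩
  · intro n p hn h0 hp
    have := Pool.Agent.H933R4.FAS.girth p n hn h0 hp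
    omega
  · intro F hF a b c d h1 h2 h3
    exact Pool.Agent.H933R4.FAS.no_three (by omega) hF h1 h2 h3
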